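import Pool.Agent.Helper40.TWM.Stmts
import Pool.Agent.Helper98.TW.Hul

/-!
Row MHQ: the hull of an ergodic joining.
-/

open MeasureTheory Filter Topology Finset
open scoped ComplexConjugate

namespace Pool.Agent.Helper40.TWM

open Pool.Agent.Helper98.TW (SA AM UF BF Sys IA Inc C0 CM ON Rk Mi Fr Wi TI Tow MR NE SS JN JJ
  ST_ALS ST_HUL AL CC uf_one inc_one)
open Pool.Agent.Helper16.AZ (T E Op mm)

theorem st_MHQ (als : ST_ALS) (hul : ST_HUL) : ST_MHQ := by
  intro N lev f f' hti hmr hne R₀ k G ε hε hG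
  obtain ⟨L, hL⟩ : ∃ L : ℕ, ∀ i, lev i < L :=
    ⟨Finset.univ.sup lev + 1, fun i => Nat.lt_succ_of_le (Finset.le_sup (Finset.mem_univ i))⟩
  have hAL := (als N lev).2.2.2.2.1 L hL
  have hAM : ∀ F : T N → ℂ, AEStronglyMeasurable F (mm N) → AM (mm N) (AL lev L) F := by
    intro F hF
    rw [hAL]
    exact hF
  set G' : Fin k → T N → ℂ := fun i x => G i x - ∫ y, G i y ∂(mm N) with hG'
  have hi : ∀ i, Integrable (G i) (mm N) := fun i => (hG i).integrable (by norm_num)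
  have hG1 : ∀ i, MemLp (G' i) 2 (mm N) := fun i => (hG i).sub (memLp_const _)
  have hG2 : ∀ i, ∫ x, G' i x ∂(mm N) = 0 := by
    intro i
    simp only [hG']
    rw [integral_sub (hi i) (integrable_const _)]
    simp
  obtain ⟨q₀, hq₀⟩ := hul N lev f f' hti hmr hne L hL (R₀ ^ 2) ε hε k G' hG1 hG2
  refine ⟨q₀, fun q hq hqp p hp hpq κ hκ => ?_⟩
  obtain ⟨h1, h2, h3, h4⟩ := hq₀ q hq hqp p hp hpq κ hκ
  refine ⟨CC lev f p q κ L, ⟨h1.ia, ?_, ?_, ?_⟩, ?_, ?_⟩
  · intro ψ hψ hinc M hM hco hpow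
    exact h1.c ψ hψ (hAM ψ hψ.1.aestronglyMeasurable) hinc M hM hco hpow
  · intro ψ hψ hinc
    exact h1.s ψ hψ (hAM ψ hψ.1.aestronglyMeasurable) hinc
  · intro E hE hE0 hrk
    refine h2 (fun _ => 1) uf_one inc_one E hE hE0 ?_ hrk
    intro g _
    refine hAM _ ?_
    have := (Lp.aestronglyMeasurable g)
    simpa using this
  · intro F hF hF2 hF0
    exact h3 F hF hF2 (hAM F hF2.1) hF0
  · intro i
    refine le_trans (le_of_eq ?_) (h4 i)
    refine integral_congr_ae ?_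
    have hle := h1.ia.1
    have h5 : (mm N)[G' i|CC lev f p q κ L] =ᵐ[mm N]
        (mm N)[G i|CC lev f p q κ L] - (mm N)[fun _ => ∫ y, G i y ∂(mm N)|CC lev f p q κ L] :=
      condExp_sub (hi i) (integrable_const _) _
    have h6 : (mm N)[fun _ : T N => ∫ y, G i y ∂(mm N)|CC lev f p q κ L] =
        fun _ => ∫ y, G i y ∂(mm N) := condExp_const hle _
    filter_upwards [h5] with x hx
    rw [hx, Pi.sub_apply, h6]

end Pool.Agent.Helper40.TWM
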