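import Pool.Agent.Helper40.TWM.Stmts

/-!
Row MTW: the theorem for continuous towers.
-/

open MeasureTheory Filter Topology Finset
open scoped ComplexConjugate

namespace Pool.Agent.Helper40.TWM

open Pool.Agent.Helper98.TW (SA AM UF BF Sys IA Inc C0 CM ON Rk Mi Fr Wi TI Tow MR NE SS JN JJ
  ST_INV ST_MPS)
open Pool.Agent.Helper16.AZ (T E Op mm)
open Pool.Agent.Helper16.BZ (EQ)
open Pool.Agent.Helper40.DZ (Good3)
open Pool.Agent.Helper40.JZ (ST_THB4)

theorem continuous_SS {N : ℕ} {f : Fin N → T N → UnitAddCircle} (hf : ∀ i, Continuous (f i)) :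
    Continuous (SS f) := by
  refine continuous_pi fun i => ?_
  exact (continuous_apply i).add (hf i)

theorem st_MTW (inv : ST_INV) (mps : ST_MPS) (mst : ST_MST) (mla : ST_MLA) (mue : ST_MUE)
    (msp : ST_MSP) (thb : ST_THB4) : ST_MTW := by
  intro N lev f hT hf hmr hne
  obtain ⟨f', hti⟩ := inv N lev f hT
  have hst := mst N lev f f' hti hmr hne
  have hmp : MeasurePreserving (SS f) (mm N) (mm N) := by
    have := (mps N lev f f' hti 1).mp
    simpa using this
  have hc : Continuous (SS f) := continuous_SS hf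
  have heq : EQ (SS f) (mm N) := mue N lev f f' hti hf hst
  have hstr : Pool.Agent.Helper40.JZ.StrP (SS f) := by
    refine msp N (SS f) hc hmp heq ?_
    intro d φ c hφ hcc ε hε
    obtain ⟨P₀, hP⟩ := mla N lev f f' hti hmr hne d φ c hφ hcc ε hε
    refine ⟨P₀, fun p hp hpp q hq hqp hpq κ h1 h2 h3 h4 => ?_⟩
    exact hP p hp hpp q hq hqp hpq κ ⟨h1, h2, h3, h4⟩
  let e : T N ≃ T N := ⟨SS f, SS f', hti.l, hti.r⟩
  have hce : Continuous e := hc
  let S : T N ≃ₜ T N := hce.homeoOfEquivCompactToT2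
  have hS : (S : T N → T N) = SS f := rfl
  refine ⟨?_, heq, hmp⟩
  have := thb N S (by rw [hS]; exact hstr) (by rw [hS]; exact hmp) (by rw [hS]; exact heq)
  rwa [hS] at this

end Pool.Agent.Helper40.TWM
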