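import Pool.Agent.Helper40.TWM.Defs

/-!
Towers of torus extensions, part M: statements of the modules (MP_7a8f48_an).
-/

open MeasureTheory Filter Topology Finset
open scoped ComplexConjugate

namespace Pool.Agent.Helper40.TWM

open Pool.Agent.Helper98.TW (SA AM UF BF Sys IA Inc C0 CM ON Rk Mi Fr Wi TI Tow MR NE SS JN JJ)
open Pool.Agent.Helper16.AZ (T E Op mm)
open Pool.Agent.Helper16.BZ (co Wk EE EQ)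
open Pool.Agent.Helper40.DZ (RI UR SK Good3)
open Pool.Agent.Helper40.JZ (LM StrP)

/-! ### Block A: matrices -/

/-- MIR: the frames of minimal modules are irreducible. -/
def ST_MIR : Prop := ∀ (Ω : Type) [MeasurableSpace Ω] (μ : Measure Ω) [IsProbabilityMeasure μ]
  (V : Type) [NormedAddCommGroup V] [InnerProductSpace ℂ V] [FiniteDimensional ℂ V]
  (R R' : Ω → Ω) (θ : Ω → V →L[ℂ] V) (C : SA Ω) (M : Submodule ℂ (Lp V 2 μ)) (m : ℕ)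
  (e : Fin m → Lp V 2 μ) (ρ : Ω → Matrix (Fin m) (Fin m) ℂ), Sys μ R R' → Ergodic R μ →
  IA μ C R R' → Mi μ C R θ M → Fr μ C R θ M e ρ → IrM μ C R ρ

/-- MEN: the module of the entries of an equivariant matrix. -/
def ST_MEN : Prop := ∀ (Ω : Type) [MeasurableSpace Ω] (μ : Measure Ω) [IsProbabilityMeasure μ]
  (S S' : Ω → Ω) (C : SA Ω) (p q R₀ m : ℕ) (Y σ ρ : Ω → Matrix (Fin m) (Fin m) ℂ),
  Sys μ S^[p] S'^[p] → Ergodic S^[p] μ → HQ μ S S' p q R₀ C → m ≤ R₀ →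
  (∀ a b, AEStronglyMeasurable (fun x => Y x a b) μ) →
  (∃ B : ℝ, ∀ᵐ x ∂μ, ∀ a b, ‖Y x a b‖ ≤ B) →
  (∀ a b, AM μ C fun x => σ x a b) → (∀ a b, AM μ C fun x => ρ x a b) →
  (∀ᵐ x ∂μ, σ x ∈ Matrix.unitaryGroup (Fin m) ℂ) →
  (∀ᵐ x ∂μ, ρ x ∈ Matrix.unitaryGroup (Fin m) ℂ) →
  (∀ᵐ x ∂μ, Y (S^[p] x) = σ x * Y x * (ρ x).conjTranspose) →
  (¬ ∀ a b, AM μ C fun x => Y x a b) →
  ∃ (ψ : Ω → ℂ) (B : Ω → Matrix (Fin m) (Fin m) ℂ), UF μ ψ ∧ Inc μ C S^[p] ψ ∧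
    μ[ψ|C] =ᵐ[μ] 0 ∧ (∀ a b, AM μ C fun x => B x a b) ∧
    (∃ L : ℝ, ∀ᵐ x ∂μ, ∀ a b, ‖B x a b‖ ≤ L) ∧ (¬ ∀ᵐ x ∂μ, B x = 0) ∧
    ∀ᵐ x ∂μ, B (S^[p] x) = conj (ψ (S^[p] x) * conj (ψ x)) •
      (σ x * B x * (ρ x).conjTranspose)

/-- MCL: equivariant matrices for irreducible cocycles are scalar. -/
def ST_MCL : Prop := ∀ (Ω : Type) [MeasurableSpace Ω] (μ : Measure Ω) [IsProbabilityMeasure μ]
  (S S' : Ω → Ω) (C : SA Ω) (p q R₀ m : ℕ) (Y ρ : Ω → Matrix (Fin m) (Fin m) ℂ),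
  Sys μ S^[p] S'^[p] → Ergodic S^[p] μ → HQ μ S S' p q R₀ C → q.Prime → R₀ ^ 2 < q → m ≤ R₀ →
  (∀ a b, AEStronglyMeasurable (fun x => Y x a b) μ) →
  (∃ B : ℝ, ∀ᵐ x ∂μ, ∀ a b, ‖Y x a b‖ ≤ B) → (∀ a b, AM μ C fun x => ρ x a b) →
  (∀ᵐ x ∂μ, ρ x ∈ Matrix.unitaryGroup (Fin m) ℂ) → IrM μ C S^[p] ρ →
  (∀ᵐ x ∂μ, Y (S^[p] x) = ρ x * Y x * (ρ x).conjTranspose) →
  ∃ l : ℂ, ∀ᵐ x ∂μ, Y x = l • (1 : Matrix (Fin m) (Fin m) ℂ)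

/-- MZD: the exceptional primes of a cocycle. -/
def ST_MZD : Prop := ∀ (Ω : Type) [MeasurableSpace Ω] (μ : Measure Ω) [IsProbabilityMeasure μ]
  (V : Type) [NormedAddCommGroup V] [InnerProductSpace ℂ V] [FiniteDimensional ℂ V]
  [CompleteSpace V] (S S' : Ω → Ω) (θ : Ω → V →L[ℂ] V), St μ S S' → Th μ θ →
  ∃ p₀ : ℕ, ∀ p ≥ p₀, p.Prime → Zp μ S θ p

/-! ### Block B: modules -/

/-- MDC: modules of finite rank are sums of minimal modules. -/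
def ST_MDC : Prop := ∀ (Ω : Type) [MeasurableSpace Ω] (μ : Measure Ω) [IsProbabilityMeasure μ]
  (V : Type) [NormedAddCommGroup V] [InnerProductSpace ℂ V] [FiniteDimensional ℂ V]
  (R R' : Ω → Ω) (θ : Ω → V →L[ℂ] V) (C : SA Ω) (K : Submodule ℂ (Lp V 2 μ)) (n : ℕ),
  Sys μ R R' → Ergodic R μ → IA μ C R R' → Th μ θ → CM μ C R θ K → Rk μ C K n →
  ∀ G ∈ K, ∃ (k : ℕ) (h : Fin k → Lp V 2 μ), G = ∑ i, h i ∧
    ∀ i, ∃ (M : Submodule ℂ (Lp V 2 μ)) (m : ℕ) (e : Fin m → Lp V 2 μ)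
      (ρ : Ω → Matrix (Fin m) (Fin m) ℂ), h i ∈ M ∧ M ≤ K ∧ Mi μ C R θ M ∧ 1 ≤ m ∧ m ≤ n ∧
      Rk μ C M m ∧ Fr μ C R θ M e ρ

/-- MWI: minimal modules for the power `p` of small rank are invariant. -/
def ST_MWI : Prop := ∀ (Ω : Type) [MeasurableSpace Ω] (μ : Measure Ω) [IsProbabilityMeasure μ]
  (V : Type) [NormedAddCommGroup V] [InnerProductSpace ℂ V] [FiniteDimensional ℂ V]
  [CompleteSpace V] (S S' : Ω → Ω) (θ : Ω → V →L[ℂ] V) (C : SA Ω) (p q R₀ : ℕ)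
  (M : Submodule ℂ (Lp V 2 μ)) (m : ℕ) (e : Fin m → Lp V 2 μ)
  (ρ : Ω → Matrix (Fin m) (Fin m) ℂ), St μ S S' → Th μ θ → p.Prime → q.Prime → p ≠ q →
  R₀ ^ 2 < q → HQ μ S S' p q R₀ C → Zp μ S θ p → Mi μ C S^[p] (tp S θ p) M → 1 ≤ m → m ≤ R₀ →
  Fr μ C S^[p] (tp S θ p) M e ρ →
  ∃ B : Ω → Matrix (Fin m) (Fin m) ℂ, (∀ a b, AM μ C fun x => B x a b) ∧
    (∀ᵐ x ∂μ, B x ∈ Matrix.unitaryGroup (Fin m) ℂ) ∧
    ∀ a, ∀ᵐ x ∂μ, θ x (e a (S x)) = ∑ b, B x a b • e b x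

/-- MIV: all modules for the power `p` of small rank are invariant. -/
def ST_MIV : Prop := ∀ (Ω : Type) [MeasurableSpace Ω] (μ : Measure Ω) [IsProbabilityMeasure μ]
  (V : Type) [NormedAddCommGroup V] [InnerProductSpace ℂ V] [FiniteDimensional ℂ V]
  [CompleteSpace V] (S S' : Ω → Ω) (θ : Ω → V →L[ℂ] V) (C : SA Ω) (p q R₀ : ℕ)
  (K : Submodule ℂ (Lp V 2 μ)), St μ S S' → Th μ θ → p.Prime → q.Prime → p ≠ q →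
  R₀ ^ 2 < q → HQ μ S S' p q R₀ C → Zp μ S θ p → CM μ C S^[p] (tp S θ p) K → Rk μ C K R₀ →
  CM μ C S θ K ∧ ∀ G G' : Lp V 2 μ, G ∈ K → (∀ᵐ x ∂μ, G x = θ x (G' (S x))) → G' ∈ K

/-- MCM: operators which commute with the power `p` commute on modules of small rank. -/
def ST_MCM : Prop := ∀ (Ω : Type) [MeasurableSpace Ω] (μ : Measure Ω) [IsProbabilityMeasure μ]
  (V : Type) [NormedAddCommGroup V] [InnerProductSpace ℂ V] [FiniteDimensional ℂ V]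
  [CompleteSpace V] (S S' : Ω → Ω) (θ : Ω → V →L[ℂ] V) (C : SA Ω) (p q R₀ : ℕ)
  (K : Submodule ℂ (Lp V 2 μ)) (Ψ : Lp V 2 μ →L[ℂ] Lp V 2 μ), St μ S S' → Th μ θ →
  p.Prime → q.Prime → p ≠ q → R₀ ^ 2 < q → HQ μ S S' p q R₀ C → Zp μ S θ p →
  CM μ C S^[p] (tp S θ p) K → Rk μ C K R₀ → Cq μ C S^[p] (tp S θ p) Ψ →
  ∀ G G' : Lp V 2 μ, G ∈ K → (∀ᵐ x ∂μ, G' x = θ x (G (S x))) →
    ∀ᵐ x ∂μ, (Ψ G') x = θ x ((Ψ G) (S x))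

/-- MPU: the operator of a function along an ultrafilter. -/
def ST_MPU : Prop := ∀ (Ω : Type) [MeasurableSpace Ω] (μ : Measure Ω) [IsProbabilityMeasure μ]
  (V : Type) [NormedAddCommGroup V] [InnerProductSpace ℂ V] [FiniteDimensional ℂ V]
  (R R' : Ω → Ω) (θ : Ω → V →L[ℂ] V) (C : SA Ω) (F : Ω → V) (B : ℝ) (𝓤 : Ultrafilter ℕ),
  (𝓤 : Filter ℕ) ≤ atTop → Sys μ R R' → IA μ C R R' → Th μ θ → AEStronglyMeasurable F μ →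
  (∀ x, ‖F x‖ ≤ B) →
  ∃ Ψ : Lp V 2 μ →L[ℂ] Lp V 2 μ, IsSelfAdjoint Ψ ∧ (∀ G, 0 ≤ RCLike.re (inner ℂ (Ψ G) G : ℂ)) ∧
    Cq μ C R θ Ψ ∧
    (∀ G : Lp V 2 μ, Tendsto (fun H : ℕ => (∑ h ∈ range H,
      ∫ x, ‖(μ[fun x => (inner ℂ (G x) (Wi θ R h F x) : ℂ)|C]) x‖ ^ 2 ∂μ) / (H : ℝ)) 𝓤
      (𝓝 (RCLike.re (inner ℂ (Ψ G) G : ℂ)))) ∧
    (∀ (m : ℕ) (e : Fin m → Lp V 2 μ), ON μ C e →
      ∑ a, RCLike.re (inner ℂ (Ψ (e a)) (e a) : ℂ) ≤ ∫ x, ‖F x‖ ^ 2 ∂μ) ∧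
    ∀ K : Submodule ℂ (Lp V 2 μ), CM μ C R θ K → (∀ F' : Lp V 2 μ, F' =ᵐ[μ] F → F' ∈ K) →
      ∀ G, Ψ G ∈ K

/-- MPE: the part of a positive operator above `s`. -/
def ST_MPE : Prop := ∀ (Ω : Type) [MeasurableSpace Ω] (μ : Measure Ω) [IsProbabilityMeasure μ]
  (V : Type) [NormedAddCommGroup V] [InnerProductSpace ℂ V] [FiniteDimensional ℂ V]
  (R R' : Ω → Ω) (θ : Ω → V →L[ℂ] V) (C : SA Ω) (Ψ : Lp V 2 μ →L[ℂ] Lp V 2 μ) (A s : ℝ),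
  Sys μ R R' → IA μ C R R' → Th μ θ → IsSelfAdjoint Ψ →
  (∀ G, 0 ≤ RCLike.re (inner ℂ (Ψ G) G : ℂ)) → Cq μ C R θ Ψ →
  (∀ (m : ℕ) (e : Fin m → Lp V 2 μ), ON μ C e →
    ∑ a, RCLike.re (inner ℂ (Ψ (e a)) (e a) : ℂ) ≤ A) → 0 < s →
  ∃ K : Submodule ℂ (Lp V 2 μ), CM μ C R θ K ∧ (∀ n : ℕ, A / s < n + 1 → Rk μ C K n) ∧
    (∀ G ∈ K, Ψ G ∈ K) ∧ (∀ G ∈ K, s * ‖G‖ ^ 2 ≤ RCLike.re (inner ℂ (Ψ G) G : ℂ)) ∧
    (∀ G, (∀ G' ∈ K, (inner ℂ G' G : ℂ) = 0) →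
      RCLike.re (inner ℂ (Ψ G) G : ℂ) ≤ s * ‖G‖ ^ 2) ∧
    ∀ K' : Submodule ℂ (Lp V 2 μ), IsClosed (K' : Set (Lp V 2 μ)) → (∀ G, Ψ G ∈ K') → K ≤ K'

/-! ### Block C: masses -/

/-- MCE: means of stationary positive definite kernels. -/
def ST_MCE : Prop := ∀ N : ℕ → ℕ → ℝ, SK N → ∀ m : ℕ, 1 ≤ m →
  Tendsto (fun H : ℕ => (∑ h ∈ range H, N 0 (m * h)) / (H : ℝ)) atTop (𝓝 (LM N m))

/-- MSK: the masses are stationary positive definite kernels. -/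
def ST_MSK : Prop := ∀ (Ω : Type) [MeasurableSpace Ω] [StandardBorelSpace Ω] (μ : Measure Ω)
  [IsProbabilityMeasure μ] (S S' : Ω → Ω) (C : SA Ω) (d : ℕ) (φ : Ω → Op d) (c : Ω → E d),
  Sys μ S S' → IA μ C S S' → AEStronglyMeasurable φ μ → (∀ x, φ x ∈ unitary (Op d)) →
  AEStronglyMeasurable c μ → (∃ B : ℝ, ∀ x, ‖c x‖ ≤ B) → SK (NC μ C S φ c)

/-- MNK: elementary properties of the masses. -/
def ST_MNK : Prop := ∀ (Ω : Type) [MeasurableSpace Ω] [StandardBorelSpace Ω] (μ : Measure Ω)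
  [IsProbabilityMeasure μ] (S S' : Ω → Ω) (C : SA Ω) (d : ℕ) (φ : Ω → Op d) (c : Ω → E d),
  Sys μ S S' → IA μ C S S' → AEStronglyMeasurable φ μ → (∀ x, φ x ∈ unitary (Op d)) →
  AEStronglyMeasurable c μ → (∃ B : ℝ, ∀ x, ‖c x‖ ≤ B) → SK (NK μ S φ c) ∧
  ∀ k k' : ℕ, NK μ S φ c k k' ≤ NC μ C S φ c k k' ∧
    NC μ C S φ c k k' ≤ ∫ x, ‖EE S φ c k k' x‖ ^ 2 ∂μ ∧
    NC μ C S φ c k k' - NK μ S φ c k k' =
      ∫ x, ‖(μ[EE S φ c k k'|C]) x - ∫ y, EE S φ c k k' y ∂μ‖ ^ 2 ∂μ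

/-- MAS: the masses in the hull for the power `p`. -/
def ST_MAS : Prop := ∀ (Ω : Type) [MeasurableSpace Ω] [StandardBorelSpace Ω] (μ : Measure Ω)
  [IsProbabilityMeasure μ] (S S' : Ω → Ω) (C : SA Ω) (d : ℕ) (φ : Ω → Op d) (c : Ω → E d)
  (p q R₀ : ℕ), St μ S S' → AEStronglyMeasurable φ μ → (∀ x, φ x ∈ unitary (Op d)) →
  AEStronglyMeasurable c μ → (∃ B : ℝ, ∀ x, ‖c x‖ ≤ B) → p.Prime → q.Prime → p ≠ q →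
  1 ≤ R₀ → R₀ ^ 2 < q → HQ μ S S' p q R₀ C → Zp μ S (fun x => star (φ x)) p →
  LM (NC μ C S φ c) p ≤ LM (NC μ C S φ c) 1 + (∫ x, ‖c x‖ ^ 2 ∂μ) ^ 2 / R₀

/-- MTV: the masses in the hull are asymptotically the masses of the constants. -/
def ST_MTV : Prop := ∀ (Ω : Type) [MeasurableSpace Ω] [StandardBorelSpace Ω] (μ : Measure Ω)
  [IsProbabilityMeasure μ] (S S' : Ω → Ω) (d : ℕ) (φ : Ω → Op d) (c : Ω → E d),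
  St μ S S' → AEStronglyMeasurable φ μ → (∀ x, φ x ∈ unitary (Op d)) →
  AEStronglyMeasurable c μ → (∃ B : ℝ, ∀ x, ‖c x‖ ≤ B) → ∀ δ : ℝ, 0 < δ →
  ∃ (p₀ R₀ K : ℕ) (η : ℝ), 1 ≤ R₀ ∧ 0 < η ∧ ∀ (C : SA Ω) (p q : ℕ), p₀ ≤ p → p.Prime →
    q.Prime → p ≠ q → R₀ ^ 2 < q → HQ μ S S' p q R₀ C →
    (∀ k < K, ∀ k' < K, NC μ C S φ c k k' - NK μ S φ c k k' ≤ η) →
    LM (NC μ C S φ c) p ≤ LM (NK μ S φ c) p + δ

/-! ### Block D: the tower -/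

/-- MHQ: the hull of an ergodic joining. -/
def ST_MHQ : Prop := ∀ (N : ℕ) (lev : Fin N → ℕ) (f f' : Fin N → T N → UnitAddCircle),
  TI lev f f' → MR lev f → NE lev f → ∀ (R₀ k : ℕ) (G : Fin k → T N → ℂ) (ε : ℝ), 0 < ε →
  (∀ i, MemLp (G i) 2 (mm N)) → ∃ q₀ : ℕ, ∀ q ≥ q₀, q.Prime → ∀ p : ℕ, p.Prime → p ≠ q →
  ∀ κ : Measure (T N × T N), JN f p q κ → ∃ C : SA (T N), HQ (mm N) (SS f) (SS f') p q R₀ C ∧
    (∀ F : T N → ℂ, Measurable F → MemLp F 2 (mm N) → (mm N)[F|C] =ᵐ[mm N] 0 →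
      JJ κ F ≤ ε * ∫ x, ‖F x‖ ^ 2 ∂(mm N)) ∧
    ∀ i, ∫ x, ‖((mm N)[G i|C]) x - ∫ y, G i y ∂(mm N)‖ ^ 2 ∂(mm N) ≤ ε

/-- MST: towers are totally ergodic. -/
def ST_MST : Prop := ∀ (N : ℕ) (lev : Fin N → ℕ) (f f' : Fin N → T N → UnitAddCircle),
  TI lev f f' → MR lev f → NE lev f → St (mm N) (SS f) (SS f')

/-- MLA: ergodic joinings of the powers of a tower. -/
def ST_MLA : Prop := ∀ (N : ℕ) (lev : Fin N → ℕ) (f f' : Fin N → T N → UnitAddCircle),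
  TI lev f f' → MR lev f → NE lev f → ∀ (d : ℕ) (φ : T N → Op d) (c : T N → E d), UR φ →
  Continuous c → ∀ ε : ℝ, 0 < ε → ∃ P₀ : ℕ, ∀ p ≥ P₀, p.Prime → ∀ q ≥ P₀, q.Prime → p ≠ q →
  ∀ κ : Measure (T N × T N), JN f p q κ → ∀ᶠ H : ℕ in atTop,
    aH (SS f) φ c p q κ H ≤ √(LM (NK (mm N) (SS f) φ c) p) *
      √(LM (NK (mm N) (SS f) φ c) q) + ε

/-- MUE: continuous totally ergodic towers are uniquely ergodic. -/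
def ST_MUE : Prop := ∀ (N : ℕ) (lev : Fin N → ℕ) (f f' : Fin N → T N → UnitAddCircle),
  TI lev f f' → (∀ i, Continuous (f i)) → St (mm N) (SS f) (SS f') → EQ (SS f) (mm N)

/-- MSP: from ergodic joinings to the property of the random part. -/
def ST_MSP : Prop := ∀ (N : ℕ) (S : T N → T N), Continuous S →
  MeasurePreserving S (mm N) (mm N) → EQ S (mm N) →
  (∀ (d : ℕ) (φ : T N → Op d) (c : T N → E d), UR φ → Continuous c → ∀ ε : ℝ, 0 < ε →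
    ∃ P₀ : ℕ, ∀ p ≥ P₀, p.Prime → ∀ q ≥ P₀, q.Prime → p ≠ q →
    ∀ κ : Measure (T N × T N), IsProbabilityMeasure κ → κ.map Prod.fst = mm N →
    κ.map Prod.snd = mm N → Ergodic (Prod.map S^[p] S^[q]) κ → ∀ᶠ H : ℕ in atTop,
    aH S φ c p q κ H ≤ √(LM (NK (mm N) S φ c) p) * √(LM (NK (mm N) S φ c) q) + ε) →
  StrP S

/-- MTW: the theorem for continuous towers. -/
def ST_MTW : Prop := ∀ (N : ℕ) (lev : Fin N → ℕ) (f : Fin N → T N → UnitAddCircle),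
  Tow lev f → (∀ i, Continuous (f i)) → MR lev f → NE lev f →
  Good3 (SS f) ∧ EQ (SS f) (mm N) ∧ MeasurePreserving (SS f) (mm N) (mm N)

end Pool.Agent.Helper40.TWM
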