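import Pool.Agent.Helper40.TWM.AllTW
import Pool.Agent.Helper40.TWM.MTW
import Pool.Agent.Helper40.TWM.MHQ
import Pool.Agent.Helper19.TWM.MPU
import Pool.Agent.Helper29.TWM.MZD
import Pool.Agent.Helper41.TWM.MLA
import Pool.Agent.Helper41.TWM.MTV
import Pool.Agent.Helper46.TWM.MST
import Pool.Agent.Helper47.TWM.MSP
import Pool.Agent.Helper59.TWM.MEN
import Pool.Agent.Helper60.TWM.MWI
import Pool.Agent.Helper72.TWM.MDC
import Pool.Agent.Helper72.TWM.MIV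
import Pool.Agent.Helper73.TWM.MUE
import Pool.Agent.Helper74.TWM.MAS
import Pool.Agent.Helper74.TWM.MCM
import Pool.Agent.Helper89.TWR.PSE
import Pool.Agent.Helper89.TWR.MSK
import Pool.Agent.Helper95.TWM.MCL
import Pool.Agent.Helper95.TWM.MIR
import Pool.Agent.Helper96.TWM.MCE
import Pool.Agent.Helper96.TWM.MNK

/-!
All the modules of the sheet on isometric extensions of towers put together.
-/

namespace Pool.Agent.Helper40.TWM

open Pool.Agent.Helper40.JZ (all_LMF all_THB4)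

theorem tm_MHQ : ST_MHQ := st_MHQ tw_ALS tw_HUL

theorem tm_MST : ST_MST := Pool.Agent.Helper46.TWM.st_MST tw_MPS tw_NEC tw_EIG tw_ERP

theorem tm_MUE : ST_MUE := Pool.Agent.Helper73.TWM.st_MUE

theorem tm_MZD : ST_MZD := Pool.Agent.Helper29.TWM.st_MZD

theorem tm_MDC : ST_MDC := Pool.Agent.Helper72.TWM.st_MDC

theorem tm_MEN : ST_MEN := Pool.Agent.Helper59.TWM.st_MEN tw_SPN

theorem tm_MIR : ST_MIR := Pool.Agent.Helper95.TWM.st_MIR tw_SCL

theorem tm_MCL : ST_MCL := Pool.Agent.Helper95.TWM.st_MCL tm_MEN tw_TWS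

theorem tm_MWI : ST_MWI := Pool.Agent.Helper60.TWM.st_MWI tm_MCL tm_MEN tm_MIR

theorem tm_MIV : ST_MIV := Pool.Agent.Helper72.TWM.st_MIV tm_MDC tm_MWI

theorem tm_MPU : ST_MPU := Pool.Agent.Helper19.TWM.st_MPU tw_CEC

theorem tm_MPE : ST_MPE := Pool.Agent.Helper89.TWR.st_MPE

theorem tm_MSK : ST_MSK := Pool.Agent.Helper89.TWR.st_MSK tw_CEC

theorem tm_MNK : ST_MNK := Pool.Agent.Helper96.TWM.st_MNK tm_MSK

theorem tm_MCE : ST_MCE := Pool.Agent.Helper96.TWM.st_MCE all_LMF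

theorem tm_MCM : ST_MCM := Pool.Agent.Helper74.TWM.st_MCM tm_MDC tm_MIV tm_MIR

theorem tm_MAS : ST_MAS := Pool.Agent.Helper74.TWM.st_MAS tm_MPU tm_MPE tm_MIV tm_MCM tm_MCE
  tm_MSK

theorem tm_MTV : ST_MTV := Pool.Agent.Helper41.TWM.st_MTV tm_MZD tm_MAS tm_MSK tm_MNK all_LMF

theorem tm_MLA : ST_MLA := Pool.Agent.Helper41.TWM.st_MLA tm_MST tm_MHQ tm_MTV tm_MSK tm_MNK
  all_LMF

theorem tm_MSP : ST_MSP := Pool.Agent.Helper47.TWM.st_MSP Pool.Agent.Helper40.DZ.all_KER all_LMF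
  Pool.Agent.Helper40.DZ.all_RIS Pool.Agent.Helper40.DZ.all_EQR

theorem tm_MTW : ST_MTW := st_MTW tw_INV tw_MPS tm_MST tm_MLA tm_MUE tm_MSP all_THB4

end Pool.Agent.Helper40.TWM
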