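import Pool.Agent.Helper98.TW.Jsm
import Pool.Agent.Helper40.JZ.All
import Pool.Agent.Helper13.TWR.CT
import Pool.Agent.Helper13.TWR.LZ
import Pool.Agent.Helper13.TWR.POW
import Pool.Agent.Helper19.TWR.PSI
import Pool.Agent.Helper29.TWR.VST
import Pool.Agent.Helper34.TWR.SM0
import Pool.Agent.Helper34.TWR.SRK
import Pool.Agent.Helper41.TWR.ALS
import Pool.Agent.Helper41.TWR.CHZ
import Pool.Agent.Helper41.TWR.IAL
import Pool.Agent.Helper41.TWR.INV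
import Pool.Agent.Helper41.TWR.JG1
import Pool.Agent.Helper41.TWR.JG2
import Pool.Agent.Helper41.TWR.TRV
import Pool.Agent.Helper46.TWR.EIG
import Pool.Agent.Helper46.TWR.ERP
import Pool.Agent.Helper46.TWR.NEC
import Pool.Agent.Helper47.TWR.PLJ
import Pool.Agent.Helper53.TWR.HHO
import Pool.Agent.Helper53.TWR.HNB
import Pool.Agent.Helper53.TWR.HNC
import Pool.Agent.Helper59.TWR.KK
import Pool.Agent.Helper59.TWR.MPS
import Pool.Agent.Helper59.TWR.VF2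
import Pool.Agent.Helper60.TWR.TRS
import Pool.Agent.Helper64.TWR.JSW
import Pool.Agent.Helper72.TWR.FRE
import Pool.Agent.Helper72.TWR.FRP
import Pool.Agent.Helper72.TWR.MIN
import Pool.Agent.Helper73.TWR.CEC
import Pool.Agent.Helper73.TWR.IAJ
import Pool.Agent.Helper73.TWR.VF1
import Pool.Agent.Helper89.TWR.PSE
import Pool.Agent.Helper92.TWR.BI
import Pool.Agent.Helper94.TWR.H00
import Pool.Agent.Helper94.TWR.HAA
import Pool.Agent.Helper94.TWR.HDV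
import Pool.Agent.Helper94.TWR.HIA
import Pool.Agent.Helper94.TWR.HNS
import Pool.Agent.Helper94.TWR.HSI
import Pool.Agent.Helper94.TWR.JD0
import Pool.Agent.Helper95.TWR.SCL
import Pool.Agent.Helper95.TWR.SST
import Pool.Agent.Helper96.TWR.DNS
import Pool.Agent.Helper96.TWR.PFC
import Pool.Agent.Helper96.TWR.PST
import Pool.Agent.Helper96.TWR.SPN
import Pool.Agent.Helper96.TWR.TCA
import Pool.Agent.Helper97.TWR.TR
import Pool.Agent.Helper99.TWR.TRM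
import Pool.Agent.Helper99.TWR.TWS
import Pool.Agent.Helper99.TWR.VIN

/-!
All the modules of the sheet on towers of torus extensions put together.
-/

namespace Pool.Agent.Helper40.TWM

open Pool.Agent.Helper98.TW

theorem tw_CEC : ST_CEC := Pool.Agent.Helper73.TWR.st_CEC

theorem tw_IAJ : ST_IAJ := Pool.Agent.Helper73.TWR.st_IAJ

theorem tw_DNS : ST_DNS := Pool.Agent.Helper96.TWR.st_DNS

theorem tw_PFC : ST_PFC := Pool.Agent.Helper96.TWR.st_PFC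

theorem tw_TCA : ST_TCA := Pool.Agent.Helper96.TWR.st_TCA

theorem tw_SPN : ST_SPN := Pool.Agent.Helper96.TWR.st_SPN

theorem tw_LZ : ST_LZ := Pool.Agent.Helper13.TWR.st_LZ tw_CEC

theorem tw_LT : ST_LT := Pool.Agent.Helper13.TWR.st_LT tw_LZ tw_DNS

theorem tw_CT : ST_CT := Pool.Agent.Helper13.TWR.st_CT tw_LZ

theorem tw_GL : ST_GL := Pool.Agent.Helper13.TWR.st_GL tw_CEC tw_DNS

theorem tw_MPS : ST_MPS := Pool.Agent.Helper59.TWR.st_MPS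

theorem tw_ALS : ST_ALS := Pool.Agent.Helper41.TWR.st_ALS

theorem tw_CHZ : ST_CHZ := Pool.Agent.Helper41.TWR.st_CHZ

theorem tw_IAL : ST_IAL := Pool.Agent.Helper41.TWR.st_IAL tw_MPS

theorem tw_INV : ST_INV := Pool.Agent.Helper41.TWR.st_INV

theorem tw_TRV : ST_TRV := Pool.Agent.Helper41.TWR.st_TRV

theorem tw_POW : ST_POW := Pool.Agent.Helper13.TWR.st_POW tw_MPS tw_IAL tw_ALS tw_CHZ tw_LT

theorem tw_EIG : ST_EIG := Pool.Agent.Helper46.TWR.st_EIG tw_MPS tw_IAL tw_ALS tw_CHZ tw_CEC tw_DNS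

theorem tw_ERP : ST_ERP := Pool.Agent.Helper46.TWR.st_ERP tw_MPS

theorem tw_NEC : ST_NEC := Pool.Agent.Helper46.TWR.st_NEC tw_INV tw_MPS

theorem tw_TRM : ST_TRM := Pool.Agent.Helper99.TWR.TRM

theorem tw_TWS : ST_TWS := Pool.Agent.Helper99.TWR.TWS

theorem tw_VIN : ST_VIN := Pool.Agent.Helper99.TWR.st_VIN

theorem tw_SCL : ST_SCL := Pool.Agent.Helper95.TWR.st_SCL

theorem tw_SST : ST_SST := Pool.Agent.Helper95.TWR.st_SST

theorem tw_JSW : ST_JSW := Pool.Agent.Helper64.TWR.st_JSW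

theorem tw_PST : ST_PST := Pool.Agent.Helper96.TWR.st_PST tw_CT tw_GL tw_TRV

theorem tw_PLJ : ST_PLJ := Pool.Agent.Helper47.TWR.st_PLJ tw_TRM tw_VIN tw_PST tw_LT tw_ALS
  tw_CHZ tw_PFC

theorem tw_JG1 : ST_JG1 := Pool.Agent.Helper41.TWR.st_JG1 tw_LZ tw_DNS tw_TRM tw_MPS tw_IAL

theorem tw_JG2 : ST_JG2 := Pool.Agent.Helper41.TWR.st_JG2 tw_LZ tw_DNS tw_TRM tw_MPS tw_IAL
  tw_PLJ tw_JSW

theorem tw_JD0 : ST_JD0 := Pool.Agent.Helper94.TWR.st_JD0 tw_LZ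

theorem tw_H00 : ST_H00 := Pool.Agent.Helper94.TWR.st_H00 tw_MPS tw_ALS

theorem tw_HAA : ST_HAA := Pool.Agent.Helper94.TWR.st_HAA

theorem tw_HDV : ST_HDV := Pool.Agent.Helper94.TWR.st_HDV tw_ALS tw_JD0

theorem tw_HSI : ST_HSI := Pool.Agent.Helper94.TWR.st_HSI tw_MPS tw_IAL

theorem tw_HIA : ST_HIA := Pool.Agent.Helper94.TWR.st_HIA tw_MPS tw_ALS tw_IAJ tw_HAA tw_HSI

theorem tw_HHO : ST_HHO := Pool.Agent.Helper53.TWR.st_HHO tw_HIA tw_HAA tw_LT tw_CT tw_GL tw_TCA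
  tw_TRV tw_CHZ tw_DNS tw_IAJ tw_ALS tw_MPS tw_IAL

theorem tw_HNB : ST_HNB := Pool.Agent.Helper53.TWR.st_HNB tw_HHO tw_HAA tw_LT tw_TRM tw_PFC
  tw_IAJ tw_MPS

theorem tw_HNC : ST_HNC := Pool.Agent.Helper53.TWR.st_HNC tw_HHO tw_HAA tw_LT tw_MPS

theorem tw_HNS : ST_HNS := Pool.Agent.Helper94.TWR.st_HNS tw_MPS tw_HHO tw_HIA tw_HSI

theorem tw_PSI : ST_PSI := Pool.Agent.Helper19.TWR.st_PSI tw_CEC

theorem tw_PSE : ST_PSE := Pool.Agent.Helper89.TWR.st_PSE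

theorem tw_KK : ST_KK := Pool.Agent.Helper59.TWR.st_KK tw_PSI tw_PSE

theorem tw_BI : ST_BI := Pool.Agent.Helper92.TWR.st_BI

theorem tw_VF2 : ST_VF2 := Pool.Agent.Helper59.TWR.st_VF2 tw_KK tw_BI tw_IAL

theorem tw_VF1 : ST_VF1 := Pool.Agent.Helper73.TWR.st_VF1 tw_DNS tw_LZ tw_LT tw_HAA tw_CHZ tw_IAJ
  tw_PFC tw_TRM tw_ALS tw_MPS

theorem tw_VST : ST_VST := Pool.Agent.Helper29.TWR.st_VST tw_VF1 tw_VF2 tw_JG2 tw_HIA tw_CHZ
  tw_ALS tw_DNS tw_HAA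

theorem tw_SM0 : ST_SM0 := Pool.Agent.Helper34.TWR.st_SM0

theorem tw_SRK : ST_SRK := Pool.Agent.Helper34.TWR.st_SRK tw_SM0 tw_SST tw_ALS tw_IAL tw_MPS tw_IAJ

theorem tw_FRE : ST_FRE := Pool.Agent.Helper72.TWR.st_FRE

theorem tw_FRP : ST_FRP := Pool.Agent.Helper72.TWR.st_FRP

theorem tw_MIN : ST_MIN := Pool.Agent.Helper72.TWR.st_MIN

theorem tw_TR0 : ST_TR0 := Pool.Agent.Helper97.TWR.st_TR0

theorem tw_TR1 : ST_TR1 := Pool.Agent.Helper97.TWR.st_TR1 tw_ALS tw_DNS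

theorem tw_TRS : ST_TRS := Pool.Agent.Helper60.TWR.st_TRS tw_MPS tw_IAL tw_ALS tw_CHZ tw_DNS
  tw_CEC Pool.Agent.Helper40.JZ.all_EVC

theorem tw_HUL : ST_HUL := hul tw_ALS tw_NEC tw_EIG tw_ERP tw_POW tw_H00 tw_HAA tw_HSI tw_HIA
  tw_HNB tw_HNC tw_HNS tw_HDV tw_SRK tw_VST tw_TR0 tw_TR1 tw_TRS

theorem tw_JSM : ST_JSM := jsm tw_INV tw_ALS tw_HUL

end Pool.Agent.Helper40.TWM
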