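import Pool.Agent.Helper98.TW.Stmts
import Pool.Agent.Helper40.JZ.Stmts

/-!
Towers of torus extensions, part M: the masses in the hull and all isometric extensions of a
tower (MP_7a8f48_an). Definitions. The definitions of `Helper98.TW` are used.
-/

open MeasureTheory Filter Topology Finset
open scoped ComplexConjugate

namespace Pool.Agent.Helper40.TWM

open Pool.Agent.Helper98.TW (SA AM UF BF Sys IA Inc C0 CM ON Rk Mi Fr Wi TI Tow MR NE SS JN)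
open Pool.Agent.Helper16.AZ (T E Op mm)
open Pool.Agent.Helper16.BZ (co Wk EE EQ)

section gen

variable {Ω : Type} [m0 : MeasurableSpace Ω]

/-- totally ergodic invertible systems -/
structure St (μ : Measure Ω) (S S' : Ω → Ω) : Prop where
  sys : ∀ m : ℕ, Sys μ S^[m] S'^[m]
  erg : ∀ m : ℕ, 1 ≤ m → Ergodic S^[m] μ

/-- the properties of the hull of a joining of `S^[p]` and `S^[q]` -/
structure HQ (μ : Measure Ω) (S S' : Ω → Ω) (p q R₀ : ℕ) (C : SA Ω) : Prop where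
  ia : IA μ C S S'
  c : ∀ ψ, UF μ ψ → Inc μ C S^[p] ψ → ∀ M : ℕ, 1 ≤ M → Nat.Coprime M q →
    AM μ C (fun x => ψ x ^ M) → AM μ C ψ
  s : ∀ ψ, UF μ ψ → Inc μ C S^[p] ψ → Inc μ C S ψ
  m : ∀ G : Submodule ℂ (Lp ℂ 2 μ), CM μ C S^[p] (fun _ => 1) G → G ≠ ⊥ →
    Rk μ C G (R₀ ^ 2) → ∃ ψ : Ω → ℂ, UF μ ψ ∧ Inc μ C S^[p] ψ ∧ ∃ g ∈ G, g =ᵐ[μ] ψ

/-- irreducible matrix cocycles -/
def IrM (μ : Measure Ω) (C : SA Ω) (R : Ω → Ω) {m : ℕ} (ρ : Ω → Matrix (Fin m) (Fin m) ℂ) :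
    Prop := ∀ B : Ω → Matrix (Fin m) (Fin m) ℂ, (∀ a b, AM μ C fun x => B x a b) →
  (∀ᵐ x ∂μ, B (R x) = ρ x * B x * (ρ x).conjTranspose) →
  ∃ l : ℂ, ∀ᵐ x ∂μ, B x = l • (1 : Matrix (Fin m) (Fin m) ℂ)

section vec

variable {V : Type} [NormedAddCommGroup V] [InnerProductSpace ℂ V]

/-- measurable functions whose values are linear isometries -/
structure Th (μ : Measure Ω) (θ : Ω → V →L[ℂ] V) : Prop where
  ms : AEStronglyMeasurable θ μ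
  iso : ∀ x v, ‖θ x v‖ = ‖v‖

/-- the functions of the powers: `(G ↦ θ (G ∘ S))^n G = tp S θ n (G ∘ S^n)` -/
def tp (S : Ω → Ω) (θ : Ω → V →L[ℂ] V) : ℕ → Ω → V →L[ℂ] V
  | 0, _ => 1
  | n + 1, x => θ x * tp S θ n (S x)

/-- fields of operators which are invariant for the power `p` are invariant -/
def Zp [CompleteSpace V] (μ : Measure Ω) (S : Ω → Ω) (θ : Ω → V →L[ℂ] V) (p : ℕ) : Prop :=
  ∀ Θ : Ω → V →L[ℂ] V, AEStronglyMeasurable Θ μ → (∃ B : ℝ, ∀ᵐ x ∂μ, ‖Θ x‖ ≤ B) →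
    (∀ᵐ x ∂μ, tp S θ p x * Θ (S^[p] x) * star (tp S θ p x) = Θ x) →
    ∀ᵐ x ∂μ, θ x * Θ (S x) * star (θ x) = Θ x

/-- operators which commute with `G ↦ θ (G ∘ R)` and with the bounded `C`-measurable functions -/
structure Cq (μ : Measure Ω) (C : SA Ω) (R : Ω → Ω) (θ : Ω → V →L[ℂ] V)
    (Ψ : Lp V 2 μ →L[ℂ] Lp V 2 μ) : Prop where
  c : ∀ (c : Ω → ℂ) (G G' : Lp V 2 μ), AM μ C c → (∃ B : ℝ, ∀ᵐ x ∂μ, ‖c x‖ ≤ B) →
    (∀ᵐ x ∂μ, G' x = c x • G x) → ∀ᵐ x ∂μ, (Ψ G') x = c x • (Ψ G) x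
  w : ∀ G G' : Lp V 2 μ, (∀ᵐ x ∂μ, G' x = θ x (G (R x))) →
    ∀ᵐ x ∂μ, (Ψ G') x = θ x ((Ψ G) (R x))

end vec

/-- the masses in the factor `C` -/
noncomputable def NC {d : ℕ} (μ : Measure Ω) (C : SA Ω) (S : Ω → Ω) (φ : Ω → Op d) (c : Ω → E d)
    (k k' : ℕ) : ℝ := ∫ x, ‖(μ[EE S φ c k k'|C]) x‖ ^ 2 ∂μ

/-- the masses of the constants -/
noncomputable def NK {d : ℕ} (μ : Measure Ω) (S : Ω → Ω) (φ : Ω → Op d) (c : Ω → E d)
    (k k' : ℕ) : ℝ := ‖∫ x, EE S φ c k k' x ∂μ‖ ^ 2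

end gen

/-- the averages of the correlations for a joining -/
noncomputable def aH {N d : ℕ} (S : T N → T N) (φ : T N → Op d) (c : T N → E d) (p q : ℕ)
    (κ : Measure (T N × T N)) (H : ℕ) : ℝ :=
  (∑ h ∈ range H, ∑ h' ∈ range H, ∫ z, EE S φ c (p * h) (p * h') z.1 *
    conj (EE S φ c (q * h) (q * h') z.2) ∂κ).re / (H : ℝ) ^ 2

end Pool.Agent.Helper40.TWM
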